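import Pool.Agent.Helper948.Ent.A1

/-!
# Universal partial words: the main inequality for cyclic words (helper81)

`W` is a sequence with period `L = a ^ c` with letters and diamonds (`none`), whose windows of length `n` have
`c` letters each, two windows with different starts modulo `L` differ at a common letter position, and
the pattern of the diamonds has the period `p`, `p ∣ n`, `p ∣ L`, with `m` letters per period. Then
`2 ^ (p - 1) ≤ p ^ (m - 1)`.

Proof. Let `Fam i` be the set of the windows which start in the class `i` modulo `p`, `R = L / p` of them. For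
classes `i ≠ j` the restrictions of `Fam i` and `Fam j` to the common letter positions `K i j` are disjoint, so the
product of their cardinalities is at most `(a ^ |K i j| / 2) ^ 2`. By Shearer's lemma
`R ^ (m - 1) ≤ ∏_{j ≠ i} |Fam i on K i j|`, because every letter position of the class `i` is in `K i j` for `m - 1`
classes `j ≠ i`. Multiply over all the pairs.
-/

set_option autoImplicit false
set_option linter.unusedVariables false

namespace Pool.Agent.H81U

open Finset

open Classical in
/-- the restrictions of a family of functions to a set of coordinates -/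
noncomputable def im {T A : Type*} (V : Finset T) (F : Finset (T → A)) :
    Finset ({t // t ∈ V} → A) := F.image (fun x => fun t : {t // t ∈ V} => x t.1)

lemma mem_im {T A : Type*} {V : Finset T} {F : Finset (T → A)} {y : {t // t ∈ V} → A} :
    y ∈ im V F ↔ ∃ x ∈ F, (fun t : {t // t ∈ V} => x t.1) = y := by
  classical
  unfold im
  rw [mem_image]

lemma im_nonempty {T A : Type*} {V : Finset T} {F : Finset (T → A)} (h : F.Nonempty) :
    (im V F).Nonempty := by
  obtain ⟨x, hx⟩ := h
  exact ⟨_, mem_im.2 ⟨x, hx, rfl⟩⟩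

/-- Shearer's lemma -/
lemma shear {T A J : Type*} [Fintype J] (U : Finset T) (r : ℕ) (F : Finset (T → A))
    (hne : F.Nonempty) (S : J → Finset T) (hS : ∀ j, S j ⊆ U)
    (h : ∀ t ∈ U, ∃ Q : Finset J, r ≤ Q.card ∧ ∀ j ∈ Q, t ∈ S j) :
    (im U F).card ^ r ≤ ∏ j, (im (S j) F).card := by
  classical
  rcases Nat.eq_zero_or_pos r with rfl | hr
  · rw [pow_zero]
    exact Finset.one_le_prod' fun j _ => Finset.card_pos.2 (im_nonempty hne)
  · have h2 := Pool.Agent.Helper948.Ent.A1.shearer_main U r hr F hne S hS ?_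
    · unfold im
      convert h2
    · intro t ht
      obtain ⟨Q, hQ, hQ'⟩ := h t ht
      refine hQ.trans (Finset.card_le_card fun j hj => ?_)
      rw [Finset.mem_filter]
      exact ⟨Finset.mem_univ _, hQ' j hj⟩

/-- indicator of the letters -/
def ind {A : Type} (W : ℕ → Option A) (t : ℕ) : ℕ := if W t = none then 0 else 1

lemma ind_congr {A : Type} {W : ℕ → Option A} {s t : ℕ} (h : W s = none ↔ W t = none) :
    ind W s = ind W t := by
  unfold ind
  simp only [h]

/-- shift invariance of the number of letters in a period -/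
lemma sum_shift {A : Type} {W : ℕ → Option A} {p : ℕ} (hp : ∀ t, (W (t + p) = none ↔ W t = none))
    (t : ℕ) : ∑ j ∈ range p, ind W (j + t) = ∑ j ∈ range p, ind W j := by
  induction t with
  | zero => rfl
  | succ t ih =>
    rw [← ih]
    have h1 := Finset.sum_range_succ (fun j => ind W (j + t)) p
    have h2 := Finset.sum_range_succ' (fun j => ind W (j + t)) p
    have h3 : ind W (p + t) = ind W (0 + t) := by
      apply ind_congr
      rw [add_comm p t, zero_add]
      exact hp t
    have h4 : ∑ j ∈ range p, ind W (j + (t + 1)) = ∑ j ∈ range p, ind W (j + 1 + t) := by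
      refine Finset.sum_congr rfl fun j _ => ?_
      congr 1
      omega
    rw [h4]
    omega

lemma sum_mul {A : Type} {W : ℕ → Option A} {p : ℕ} (hp : ∀ t, (W (t + p) = none ↔ W t = none))
    (q : ℕ) (t : ℕ) : ∑ j ∈ range (p * q), ind W (j + t) = q * ∑ j ∈ range p, ind W j := by
  induction q with
  | zero => simp
  | succ q ih =>
    rw [Nat.mul_succ, Finset.sum_range_add, ih, add_mul, one_mul]
    congr 1
    have h := sum_shift hp (p * q + t)
    rw [← h]
    refine Finset.sum_congr rfl fun j _ => ?_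
    congr 1
    omega

lemma pat_mul {A : Type} {W : ℕ → Option A} {p : ℕ} (hp : ∀ t, (W (t + p) = none ↔ W t = none))
    (t r : ℕ) : W (t + p * r) = none ↔ W t = none := by
  induction r with
  | zero => simp
  | succ r ih =>
    rw [Nat.mul_succ, ← add_assoc, hp]
    exact ih

/-- the hypotheses -/
structure Cyc (a n L p c R : ℕ) (W : ℕ → Option (Fin a)) : Prop where
  per : ∀ t, W (t + L) = W t
  pat : ∀ t, (W (t + p) = none ↔ W t = none)
  pR : p * R = L
  p0 : 0 < p
  R0 : 0 < R
  La : L = a ^ c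
  sep : ∀ s s' : ℕ, ¬ s ≡ s' [MOD L] → ∃ k < n, ∃ b b' : Fin a, W (s + k) = some b ∧
    W (s' + k) = some b' ∧ b ≠ b'
  cnt : ∀ s, ∑ k ∈ range n, ind W (k + s) = c

section main

variable {a n L p c R : ℕ} {W : ℕ → Option (Fin a)}

/-- the windows of a class -/
def Fam (n p R : ℕ) (W : ℕ → Option (Fin a)) (i : ℕ) : Finset (Fin n → Option (Fin a)) :=
  (range R).image fun r => fun k : Fin n => W (i + p * r + k)

/-- the letter positions of a class -/
def U (n : ℕ) (W : ℕ → Option (Fin a)) (i : ℕ) : Finset (Fin n) :=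
  univ.filter fun k => W (i + k) ≠ none

/-- the common letter positions of two classes -/
def K (n : ℕ) (W : ℕ → Option (Fin a)) (i j : ℕ) : Finset (Fin n) :=
  univ.filter fun k => W (i + k) ≠ none ∧ W (j + k) ≠ none

/-- the same, and the empty set for `i = j` -/
def K' (n : ℕ) (W : ℕ → Option (Fin a)) (i j : ℕ) : Finset (Fin n) :=
  if i = j then ∅ else K n W i j

lemma K'_comm (n : ℕ) (W : ℕ → Option (Fin a)) (i j : ℕ) : K' n W i j = K' n W j i := by
  unfold K' K
  by_cases h : i = j
  · rw [if_pos h, if_pos h.symm]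
  · rw [if_neg h, if_neg (Ne.symm h)]
    ext k
    simp only [mem_filter, and_comm]

lemma Fam_nonempty (hR : 0 < R) (i : ℕ) : (Fam n p R W i).Nonempty :=
  ⟨_, mem_image.2 ⟨0, mem_range.2 hR, rfl⟩⟩

lemma card_U (h : Cyc a n L p c R W) (i : ℕ) : (im (U n W i) (Fam n p R W i)).card = R := by
  classical
  have e : im (U n W i) (Fam n p R W i) = (range R).image fun r =>
      fun k : {k // k ∈ U n W i} => W (i + p * r + k.1) := by
    ext y
    rw [mem_im, mem_image]
    constructor
    · rintro ⟨x, hx, rfl⟩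
      obtain ⟨r, hr, rfl⟩ := mem_image.1 hx
      exact ⟨r, hr, rfl⟩
    · rintro ⟨r, hr, rfl⟩
      exact ⟨_, mem_image.2 ⟨r, hr, rfl⟩, rfl⟩
  rw [e, card_image_of_injOn, card_range]
  intro r hr r' hr' heq
  by_contra hne
  have hr := mem_range.1 (Finset.mem_coe.1 hr)
  have hr' := mem_range.1 (Finset.mem_coe.1 hr')
  have h1 : ¬ (i + p * r) ≡ (i + p * r') [MOD L] := by
    intro h2
    have h3 : p * r ≡ p * r' [MOD L] := Nat.ModEq.add_left_cancel' i h2
    have h4 : p * r < L := by rw [← h.pR]; exact Nat.mul_lt_mul_of_pos_left hr h.p0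
    have h5 : p * r' < L := by rw [← h.pR]; exact Nat.mul_lt_mul_of_pos_left hr' h.p0
    have h6 : p * r = p * r' := by
      have h7 := h3
      unfold Nat.ModEq at h7
      rwa [Nat.mod_eq_of_lt h4, Nat.mod_eq_of_lt h5] at h7
    exact hne (Nat.eq_of_mul_eq_mul_left h.p0 h6)
  obtain ⟨k, hk, b, b', h2, h3, h4⟩ := h.sep _ _ h1
  have h5 : (⟨k, hk⟩ : Fin n) ∈ U n W i := by
    unfold U
    rw [mem_filter]
    refine ⟨mem_univ _, fun h0 => ?_⟩
    have h6 := (pat_mul h.pat (i + k) r).2 h0
    rw [show i + k + p * r = i + p * r + k by omega, h2] at h6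
    cases h6
  have h6 := congrFun heq ⟨⟨k, hk⟩, h5⟩
  simp only at h6
  rw [h2, h3] at h6
  exact h4 (Option.some.inj h6)

lemma disj (h : Cyc a n L p c R W) {i j : ℕ} (hi : i < p) (hj : j < p) (hij : i ≠ j) :
    Disjoint (im (K n W i j) (Fam n p R W i)) (im (K n W i j) (Fam n p R W j)) := by
  rw [Finset.disjoint_left]
  intro y hy hy'
  obtain ⟨x, hx, rfl⟩ := mem_im.1 hy
  obtain ⟨x', hx', he⟩ := mem_im.1 hy'
  obtain ⟨r, hr, rfl⟩ := mem_image.1 hx
  obtain ⟨r', hr', rfl⟩ := mem_image.1 hx'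
  have h1 : ¬ (i + p * r) ≡ (j + p * r') [MOD L] := by
    intro h2
    have h3 : (i + p * r) ≡ (j + p * r') [MOD p] := h2.of_dvd (Dvd.intro _ h.pR)
    unfold Nat.ModEq at h3
    rw [Nat.add_mul_mod_self_left, Nat.add_mul_mod_self_left, Nat.mod_eq_of_lt hi,
      Nat.mod_eq_of_lt hj] at h3
    exact hij h3
  obtain ⟨k, hk, b, b', h2, h3, h4⟩ := h.sep _ _ h1
  have h5 : (⟨k, hk⟩ : Fin n) ∈ K n W i j := by
    unfold K
    rw [mem_filter]
    refine ⟨mem_univ _, fun h0 => ?_, fun h0 => ?_⟩
    · have h6 := (pat_mul h.pat (i + k) r).2 h0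
      rw [show i + k + p * r = i + p * r + k by omega, h2] at h6
      cases h6
    · have h6 := (pat_mul h.pat (j + k) r').2 h0
      rw [show j + k + p * r' = j + p * r' + k by omega, h3] at h6
      cases h6
  have h6 := congrFun he ⟨⟨k, hk⟩, h5⟩
  simp only at h6
  rw [h2, h3] at h6
  exact h4 (Option.some.inj h6).symm

/-- restrictions without diamonds -/
lemma im_sub (h : Cyc a n L p c R W) {i : ℕ} {V : Finset (Fin n)}
    (hV : ∀ k ∈ V, W (i + k) ≠ none) :
    ∀ y ∈ im V (Fam n p R W i), ∀ t, y t ≠ none := by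
  intro y hy t
  obtain ⟨x, hx, rfl⟩ := mem_im.1 hy
  obtain ⟨r, hr, rfl⟩ := mem_image.1 hx
  intro h0
  have h1 := (pat_mul h.pat (i + t.1) r).1 (by
    rw [show i + (t.1 : ℕ) + p * r = i + p * r + t.1 by omega]; exact h0)
  exact hV t.1 t.2 h1

lemma card_le (V : Finset (Fin n)) (F : Finset ({t // t ∈ V} → Option (Fin a)))
    (hF : ∀ y ∈ F, ∀ t, y t ≠ none) : F.card ≤ a ^ V.card := by
  classical
  have h1 : F ⊆ (Finset.univ : Finset ({t // t ∈ V} → Fin a)).image fun g t => some (g t) := by
    intro y hy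
    have h2 : ∀ t, ∃ b, y t = some b := fun t => Option.ne_none_iff_exists'.1 (hF y hy t)
    choose g hg using h2
    exact mem_image.2 ⟨g, mem_univ _, by funext t; exact (hg t).symm⟩
  refine (card_le_card h1).trans (card_image_le.trans ?_)
  rw [card_univ, Fintype.card_fun, Fintype.card_fin, Fintype.card_coe]

/-- the inequality for a pair -/
lemma pair (h : Cyc a n L p c R W) {i j : ℕ} (hi : i < p) (hj : j < p) :
    (if i = j then 1 else 4) * ((im (K' n W i j) (Fam n p R W i)).card *
      (im (K' n W j i) (Fam n p R W j)).card) ≤ (a ^ (K' n W i j).card) ^ 2 := by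
  classical
  by_cases hij : i = j
  · subst hij
    have h1 : (im (K' n W i i) (Fam n p R W i)).card ≤ 1 := by
      rw [card_le_one]
      intro x _ y _
      have e0 : K' n W i i = ∅ := if_pos rfl
      funext ⟨t, ht⟩
      exfalso
      have ht' : t ∈ K' n W i i := ht
      rw [e0] at ht'
      exact absurd ht' (notMem_empty _)
    have h2 : (K' n W i i).card = 0 := by
      unfold K'
      rw [if_pos rfl, card_empty]
    rw [if_pos rfl, one_mul, h2, pow_zero, one_pow]
    exact Nat.mul_le_mul h1 h1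
  · have e1 : K' n W i j = K n W i j := if_neg hij
    have e2 : (im (K' n W j i) (Fam n p R W j)).card = (im (K n W i j) (Fam n p R W j)).card := by
      rw [K'_comm n W j i, e1]
    rw [if_neg hij, e2, e1]
    have h1 : (im (K n W i j) (Fam n p R W i)).card + (im (K n W i j) (Fam n p R W j)).card ≤
        a ^ (K n W i j).card := by
      rw [← card_union_of_disjoint (disj h hi hj hij)]
      apply card_le
      intro y hy
      rcases mem_union.1 hy with hy | hy
      · exact im_sub h (fun k hk => (mem_filter.1 hk).2.1) y hy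
      · exact im_sub h (fun k hk => (mem_filter.1 hk).2.2) y hy
    set x := (im (K n W i j) (Fam n p R W i)).card
    set y := (im (K n W i j) (Fam n p R W j)).card
    have h2 : (x + y) ^ 2 ≤ (a ^ (K n W i j).card) ^ 2 := Nat.pow_le_pow_left h1 2
    have h3 : 4 * (x * y) ≤ (x + y) ^ 2 := by
      have : 4 * ((x : ℤ) * y) ≤ ((x : ℤ) + y) ^ 2 := by nlinarith [sq_nonneg ((x : ℤ) - y)]
      exact_mod_cast this
    exact h3.trans h2

lemma card_letters (hp : ∀ t, (W (t + p) = none ↔ W t = none)) (t : ℕ) :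
    (univ.filter fun j : Fin p => W (j + t) ≠ none).card = ∑ j ∈ range p, ind W j := by
  rw [← sum_shift hp t, Finset.sum_range, Finset.card_filter]
  refine Finset.sum_congr rfl fun j _ => ?_
  unfold ind
  by_cases h : W (j + t) = none
  · rw [if_neg (not_not.2 h), if_pos h]
  · rw [if_pos h, if_neg h]

/-- the other classes with a letter at an offset -/
def Q (p : ℕ) (W : ℕ → Option (Fin a)) (i t : ℕ) : Finset (Fin p) :=
  univ.filter fun j : Fin p => i ≠ (j : ℕ) ∧ W (j + t) ≠ none

lemma card_Q (hp : ∀ t, (W (t + p) = none ↔ W t = none)) {i : ℕ} (hi : i < p) {t : ℕ}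
    (ht : W (i + t) ≠ none) : (Q p W i t).card = ∑ j ∈ range p, ind W j - 1 := by
  rw [← card_letters hp t]
  have e : Q p W i t = (univ.filter fun j : Fin p => W (j + t) ≠ none).erase ⟨i, hi⟩ := by
    ext j
    unfold Q
    rw [mem_filter, mem_erase, mem_filter]
    constructor
    · rintro ⟨h1, h2, h3⟩
      exact ⟨fun h => h2 (by rw [h]), h1, h3⟩
    · rintro ⟨h1, h2, h3⟩
      exact ⟨h2, fun h => h1 (Fin.ext h.symm), h3⟩
  rw [e, card_erase_of_mem]
  rw [mem_filter]
  exact ⟨mem_univ _, ht⟩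

lemma shear_class (h : Cyc a n L p c R W) {i : ℕ} (hi : i < p) :
    R ^ (∑ j ∈ range p, ind W j - 1) ≤
      ∏ j : Fin p, (im (K' n W i j) (Fam n p R W i)).card := by
  have h0 := card_U h i
  refine (le_of_eq (congrArg (fun x => x ^ (∑ j ∈ range p, ind W j - 1)) h0.symm)).trans
    (shear (U n W i) _ (Fam n p R W i) (Fam_nonempty h.R0 i) (fun j : Fin p => K' n W i j)
    ?_ ?_)
  · intro j k hk
    unfold K' at hk
    split_ifs at hk with h1
    · exact absurd hk (notMem_empty _)
    · exact mem_filter.2 ⟨mem_univ _, (mem_filter.1 hk).2.1⟩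
  · intro t ht
    have ht' : W (i + t) ≠ none := (mem_filter.1 ht).2
    refine ⟨Q p W i t, (card_Q h.pat hi ht').ge, ?_⟩
    intro j hj
    obtain ⟨-, h1, h2⟩ := mem_filter.1 hj
    unfold K'
    rw [if_neg h1]
    exact mem_filter.2 ⟨mem_univ _, ht', h2⟩

lemma card_U' (h : Cyc a n L p c R W) (i : ℕ) : (U n W i).card = c := by
  rw [← h.cnt i, Finset.sum_range]
  unfold U
  rw [Finset.card_filter]
  refine Finset.sum_congr rfl fun j _ => ?_
  unfold ind
  rw [add_comm (j : ℕ) i]
  by_cases h : W (i + j) = none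
  · rw [if_neg (not_not.2 h), if_pos h]
  · rw [if_pos h, if_neg h]

lemma sum_K (h : Cyc a n L p c R W) {i : ℕ} (hi : i < p) :
    ∑ j : Fin p, (K' n W i j).card = c * (∑ j ∈ range p, ind W j - 1) := by
  have h1 : ∀ j : Fin p, (K' n W i j).card =
      ∑ k ∈ U n W i, if i ≠ (j : ℕ) ∧ W (j + k) ≠ none then 1 else 0 := by
    intro j
    rw [← Finset.card_filter]
    congr 1
    ext k
    unfold K' U K
    by_cases h2 : i = j
    · simp [h2]
    · rw [if_neg h2]
      simp only [mem_filter, mem_univ, true_and]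
      tauto
  simp only [h1]
  rw [Finset.sum_comm]
  have h2 : ∀ k ∈ U n W i, (∑ j : Fin p, if i ≠ (j : ℕ) ∧ W (j + k) ≠ none then 1 else 0) =
      ∑ j ∈ range p, ind W j - 1 := by
    intro k hk
    rw [← Finset.card_filter]
    exact card_Q h.pat hi (mem_filter.1 hk).2
  rw [Finset.sum_congr rfl h2, Finset.sum_const, card_U' h, smul_eq_mul]

/-- the main inequality -/
theorem main (h : Cyc a n L p c R W) :
    2 ^ (p - 1) ≤ p ^ (∑ j ∈ range p, ind W j - 1) := by
  set m := ∑ j ∈ range p, ind W j with hm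
  let P : Fin p → Fin p → ℕ := fun i j => (im (K' n W i j) (Fam n p R W i)).card
  have h1 : ∀ i : Fin p, R ^ (m - 1) ≤ ∏ j : Fin p, P i j := fun i => shear_class h i.2
  have h2 : (R ^ (m - 1)) ^ p ≤ ∏ i : Fin p, ∏ j : Fin p, P i j := by
    have h3 := Finset.prod_le_prod' (s := (univ : Finset (Fin p))) (fun i _ => h1 i)
    rwa [Finset.prod_const, card_univ, Fintype.card_fin] at h3
  have h3 : ∏ i : Fin p, ∏ j : Fin p, ((if (i : ℕ) = j then 1 else 4) * (P i j * P j i)) ≤
      ∏ i : Fin p, ∏ j : Fin p, (a ^ (K' n W i j).card) ^ 2 :=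
    Finset.prod_le_prod' fun i _ => Finset.prod_le_prod' fun j _ => pair h i.2 j.2
  have h4 : ∀ i : Fin p, ∏ j : Fin p, (if (i : ℕ) = j then 1 else 4) = 4 ^ (p - 1) := by
    intro i
    rw [← Finset.mul_prod_erase univ _ (mem_univ i), if_pos rfl, one_mul]
    have h5 : ∀ j ∈ univ.erase i, (if (i : ℕ) = j then 1 else 4) = 4 := by
      intro j hj
      rw [if_neg fun h => (mem_erase.1 hj).1 (Fin.ext h.symm)]
    rw [Finset.prod_congr rfl h5, Finset.prod_const, card_erase_of_mem (mem_univ _), card_univ,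
      Fintype.card_fin]
  have h5 : ∏ i : Fin p, ∏ j : Fin p, ((if (i : ℕ) = j then 1 else 4) * (P i j * P j i)) =
      (4 ^ (p - 1)) ^ p * (∏ i : Fin p, ∏ j : Fin p, P i j) ^ 2 := by
    simp only [Finset.prod_mul_distrib, h4]
    rw [Finset.prod_const, card_univ, Fintype.card_fin, pow_two]
    congr 2
    exact Finset.prod_comm
  have h6 : ∏ i : Fin p, ∏ j : Fin p, (a ^ (K' n W i j).card) ^ 2 = ((L ^ (m - 1)) ^ p) ^ 2 := by
    have h7 : ∀ i : Fin p, ∏ j : Fin p, (a ^ (K' n W i j).card) ^ 2 = (L ^ (m - 1)) ^ 2 := by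
      intro i
      rw [Finset.prod_pow, Finset.prod_pow_eq_pow_sum, sum_K h i.2, h.La, pow_mul]
    simp only [h7]
    rw [Finset.prod_const, card_univ, Fintype.card_fin, ← pow_mul, ← pow_mul, ← pow_mul,
      ← pow_mul]
    congr 1
    ring
  rw [h5, h6] at h3
  have h7 : (4 ^ (p - 1)) ^ p * ((R ^ (m - 1)) ^ p) ^ 2 ≤ ((L ^ (m - 1)) ^ p) ^ 2 :=
    (Nat.mul_le_mul_left _ (Nat.pow_le_pow_left h2 2)).trans h3
  rw [← h.pR, mul_pow, mul_pow, mul_pow] at h7
  have h8 : (4 ^ (p - 1)) ^ p ≤ ((p ^ (m - 1)) ^ p) ^ 2 :=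
    Nat.le_of_mul_le_mul_right h7 (by have := h.R0; positivity)
  have h9 : (2 ^ (p - 1)) ^ (p * 2) ≤ (p ^ (m - 1)) ^ (p * 2) := by
    have e1 : (4 ^ (p - 1)) ^ p = (2 ^ (p - 1)) ^ (p * 2) := by
      rw [show (4 : ℕ) = 2 ^ 2 by norm_num, ← pow_mul, ← pow_mul, ← pow_mul]
      congr 1
      ring
    rw [← e1, pow_mul (p ^ (m - 1)) p 2]
    exact h8
  exact (Nat.pow_le_pow_iff_left (by have := h.p0; omega)).1 h9

end main

end Pool.Agent.H81U
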