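import Mathlib

/-!
# Integers whose largest divisor composed of given primes is large (helper81)
-/

set_option autoImplicit false
set_option linter.unusedVariables false

namespace Pool.Agent.H81U

open Finset

/-- reciprocals -/
noncomputable def rcp : ℕ →* ℝ where
  toFun m := (m : ℝ)⁻¹
  map_one' := by simp
  map_mul' x y := by push_cast; rw [mul_inv]

lemma summable_fact (s : Finset ℕ) :
    Summable (Set.indicator (Nat.factoredNumbers s) fun m : ℕ => (m : ℝ)⁻¹) := by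
  rw [← summable_subtype_iff_indicator]
  have h := (EulerProduct.summable_and_hasSum_factoredNumbers_prod_filter_prime_geometric
    (f := rcp) (fun {p} hp => by
      show ‖(p : ℝ)⁻¹‖ < 1
      rw [Real.norm_of_nonneg (by positivity)]
      exact inv_lt_one_of_one_lt₀ (by exact_mod_cast hp.one_lt)) s).1
  refine h.congr fun m => ?_
  show ‖((m : ℕ) : ℝ)⁻¹‖ = _
  rw [Real.norm_of_nonneg (by positivity)]
  rfl

lemma gcd_mem {a n : ℕ} (ha : 0 < a) (hn : 0 < n) :
    n.gcd (a ^ n) ∈ Nat.factoredNumbers a.primeFactors := by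
  rw [Nat.mem_factoredNumbers_iff_primeFactors_subset]
  refine ⟨(Nat.gcd_pos_of_pos_left _ hn).ne', fun p hp => ?_⟩
  rw [Nat.mem_primeFactors] at hp ⊢
  exact ⟨hp.1, hp.1.dvd_of_dvd_pow (hp.2.1.trans (Nat.gcd_dvd_right _ _)), ha.ne'⟩

/-- the exceptional set has a small density -/
lemma density (a : ℕ) (ha : 0 < a) (η : ℝ) (hη : 0 < η) : ∃ S : ℕ, 3 ≤ S ∧ ∀ X : ℕ,
    (((Icc 1 X).filter fun n => S < n.gcd (a ^ n)).card : ℝ) ≤ η * X := by
  obtain ⟨s, hs⟩ := summable_iff_vanishing_norm.1 (summable_fact a.primeFactors) η hη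
  refine ⟨s.sup id + 3, by omega, fun X => ?_⟩
  classical
  set t : Finset ℕ := (Icc (s.sup id + 4) X).filter
    fun m => m ∈ Nat.factoredNumbers a.primeFactors with ht
  have hdisj : Disjoint t s := by
    rw [Finset.disjoint_left]
    intro m hm hms
    have h1 := (mem_Icc.1 (mem_filter.1 hm).1).1
    have h2 : m ≤ s.sup id := Finset.le_sup (f := id) hms
    omega
  have h1 := hs t hdisj
  have h2 : ∑ m ∈ t, Set.indicator (Nat.factoredNumbers a.primeFactors)
      (fun m : ℕ => (m : ℝ)⁻¹) m = ∑ m ∈ t, (m : ℝ)⁻¹ :=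
    Finset.sum_congr rfl fun m hm => Set.indicator_of_mem (mem_filter.1 hm).2 _
  rw [h2, Real.norm_of_nonneg (Finset.sum_nonneg fun m _ => by positivity)] at h1
  have h3 : ((Icc 1 X).filter fun n => s.sup id + 3 < n.gcd (a ^ n)) ⊆
      t.biUnion fun m => (Ioc 0 X).filter fun n => m ∣ n := by
    intro n hn
    obtain ⟨hn1, hn2⟩ := mem_filter.1 hn
    obtain ⟨hn3, hn4⟩ := mem_Icc.1 hn1
    have hle : n.gcd (a ^ n) ≤ n := Nat.le_of_dvd (by omega) (Nat.gcd_dvd_left _ _)
    rw [mem_biUnion]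
    refine ⟨n.gcd (a ^ n), mem_filter.2 ⟨mem_Icc.2 ⟨by omega, by omega⟩, gcd_mem ha (by omega)⟩,
      mem_filter.2 ⟨mem_Ioc.2 ⟨by omega, hn4⟩, Nat.gcd_dvd_left _ _⟩⟩
  have h4 : (((Icc 1 X).filter fun n => s.sup id + 3 < n.gcd (a ^ n)).card : ℝ) ≤
      ∑ m ∈ t, ((X / m : ℕ) : ℝ) := by
    have h5 := (card_le_card h3).trans card_biUnion_le
    simp only [Nat.Ioc_filter_dvd_card_eq_div] at h5
    exact_mod_cast h5
  refine h4.trans ?_
  calc ∑ m ∈ t, ((X / m : ℕ) : ℝ) ≤ ∑ m ∈ t, (X : ℝ) * (m : ℝ)⁻¹ :=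
        Finset.sum_le_sum fun m _ => by rw [← div_eq_mul_inv]; exact Nat.cast_div_le
    _ = X * ∑ m ∈ t, (m : ℝ)⁻¹ := by rw [Finset.mul_sum]
    _ ≤ X * η := by gcongr
    _ = η * X := mul_comm _ _

/-- from the inequality to the real bound -/
lemma real_bound {p m n d G : ℕ} (hm : 0 < m) (hmp : m < p) (hn : 0 < n) (hd : d < n)
    (h1 : (n - d) * p = m * n) (h2 : 2 ^ (p - 1) ≤ p ^ (m - 1)) (hG : p ≤ G) :
    4 ≤ p ∧ (d : ℝ) ≤ n - n / Real.logb 2 G := by
  have hp2 : 2 ≤ p := by omega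
  have hp : (2 : ℝ) ≤ p := by exact_mod_cast hp2
  constructor
  · by_contra h3
    have h4 : p = 2 ∨ p = 3 := by omega
    rcases h4 with rfl | rfl
    · have h5 : m = 1 := by omega
      subst h5
      norm_num at h2
    · have h5 : m = 1 ∨ m = 2 := by omega
      rcases h5 with rfl | rfl <;> norm_num at h2
  have hl1 : 1 ≤ Real.logb 2 p := by
    rw [Real.le_logb_iff_rpow_le (by norm_num) (by linarith), Real.rpow_one]
    exact hp
  have h3 : ((p : ℝ) - 1) ≤ ((m : ℝ) - 1) * Real.logb 2 p := by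
    have h4 : ((2 : ℝ)) ^ (p - 1) ≤ (p : ℝ) ^ (m - 1) := by exact_mod_cast h2
    have h5 := Real.logb_le_logb_of_le (b := 2) (by norm_num) (by positivity) h4
    rw [Real.logb_pow, Real.logb_pow, Real.logb_self_eq_one (by norm_num), mul_one,
      Nat.cast_sub (by omega), Nat.cast_sub (by omega)] at h5
    simpa using h5
  have h4 : (p : ℝ) ≤ m * Real.logb 2 p := by nlinarith
  have hlG : Real.logb 2 p ≤ Real.logb 2 G :=
    Real.logb_le_logb_of_le (by norm_num) (by positivity) (by exact_mod_cast hG)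
  have hG0 : 0 < Real.logb 2 G := by linarith
  have h5 : (p : ℝ) ≤ m * Real.logb 2 G :=
    h4.trans (mul_le_mul_of_nonneg_left hlG (by positivity))
  have h6 : ((n : ℝ) - d) * p = m * n := by
    have h7 : (((n - d) * p : ℕ) : ℝ) = ((m * n : ℕ) : ℝ) := by rw [h1]
    rw [Nat.cast_mul, Nat.cast_mul, Nat.cast_sub hd.le] at h7
    exact h7
  have hn' : (0 : ℝ) < n := by exact_mod_cast hn
  have hp0 : (0 : ℝ) < p := by linarith
  have h7 : (n : ℝ) / Real.logb 2 G ≤ n - d := by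
    rw [div_le_iff₀ hG0]
    have h8 : (p : ℝ) * n ≤ p * (((n : ℝ) - d) * Real.logb 2 G) := by
      calc (p : ℝ) * n ≤ (m * Real.logb 2 G) * n := mul_le_mul_of_nonneg_right h5 hn'.le
        _ = (m * n) * Real.logb 2 G := by ring
        _ = (((n : ℝ) - d) * p) * Real.logb 2 G := by rw [h6]
        _ = p * (((n : ℝ) - d) * Real.logb 2 G) := by ring
    exact le_of_mul_le_mul_left h8 hp0
  linarith

end Pool.Agent.H81U
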