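import Pool.Agent.H81U.Word

/-!
# Universal partial words: the inequality for words (helper81)
-/

set_option autoImplicit false
set_option linter.unusedVariables false

namespace Pool.Agent.H81U

open Finset

section cyc

variable {a n c L : ℕ} {w : ℕ → Option (Fin a)}

/-- the cyclic word -/
def cy (L : ℕ) (w : ℕ → Option (Fin a)) (t : ℕ) : Option (Fin a) := w (t % L)

lemma cy_add (h : Wd a n c L w) (s : ℕ) {k : ℕ} (hk : k < n) :
    cy L w (s + k) = w (s % L + k) := by
  unfold cy
  have hnL := h.nL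
  have h1 : (s + k) % L = (s % L + k) % L := by rw [Nat.mod_add_mod]
  rw [h1]
  have h2 := Nat.mod_lt s h.L0
  by_cases h3 : s % L + k < L
  · rw [Nat.mod_eq_of_lt h3]
  · obtain ⟨t, ht⟩ : ∃ t, s % L + k = L + t := ⟨s % L + k - L, by omega⟩
    have h5 : t + 1 < n := by omega
    rw [ht, Nat.add_mod_left, Nat.mod_eq_of_lt (by omega), h.cyc h5]

lemma pat_of_cnt {A : Type} {W : ℕ → Option A} {n s : ℕ}
    (h : ∑ k ∈ range n, ind W (k + s) = ∑ k ∈ range n, ind W (k + (s + 1))) :
    W (s + n) = none ↔ W s = none := by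
  have h3 := Finset.sum_range_succ (fun k => ind W (k + s)) n
  have h4 := Finset.sum_range_succ' (fun k => ind W (k + s)) n
  have h5 : ∑ k ∈ range n, ind W (k + 1 + s) = ∑ k ∈ range n, ind W (k + (s + 1)) :=
    Finset.sum_congr rfl fun k _ => by congr 1; omega
  have h6 : ind W (n + s) = ind W (0 + s) := by omega
  rw [zero_add, add_comm n s] at h6
  unfold ind at h6
  by_cases h7 : W (s + n) = none
  · rw [if_pos h7] at h6
    refine ⟨fun _ => ?_, fun _ => h7⟩
    by_contra h8
    rw [if_neg h8] at h6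
    omega
  · rw [if_neg h7] at h6
    refine ⟨fun h8 => absurd h8 h7, fun h8 => ?_⟩
    rw [if_pos h8] at h6
    omega

lemma pat_gcd {A : Type} {W : ℕ → Option A} {n L : ℕ} (hL : 0 < L)
    (h1 : ∀ t, (W (t + n) = none ↔ W t = none)) (h2 : ∀ t, (W (t + L) = none ↔ W t = none)) :
    ∀ t, (W (t + n.gcd L) = none ↔ W t = none) := by
  intro t
  rcases (Nat.le_of_dvd hL (Nat.gcd_dvd_right n L)).lt_or_eq with h3 | h3
  · obtain ⟨x, -, hx⟩ := Nat.exists_mul_mod_eq_gcd h3
    have h4 : n.gcd L + L * (n * x / L) = n * x := by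
      rw [← hx]
      exact Nat.mod_add_div _ _
    rw [← pat_mul h2 (t + n.gcd L) (n * x / L), add_assoc, h4]
    exact pat_mul h1 t x
  · rw [h3]
    exact h2 t

lemma Wd.cycle (h : Wd a n c L w) : Cyc a n L (n.gcd L) c (L / n.gcd L) (cy L w) := by
  have hcnt : ∀ s, ∑ k ∈ range n, ind (cy L w) (k + s) = c := by
    intro s
    rw [← h.dia (s % L) (Nat.mod_lt s h.L0)]
    refine Finset.sum_congr rfl fun k hk => ?_
    have h1 := cy_add h s (mem_range.1 hk)
    unfold ind
    rw [add_comm k s, add_comm k (s % L), h1]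
  have hp0 : 0 < n.gcd L := Nat.gcd_pos_of_pos_right _ h.L0
  have hper : ∀ t, cy L w (t + L) = cy L w t := by
    intro t
    unfold cy
    rw [Nat.add_mod_right]
  refine ⟨hper, ?_, Nat.mul_div_cancel' (Nat.gcd_dvd_right n L), hp0, ?_, h.La, ?_, hcnt⟩
  · refine pat_gcd h.L0 (fun t => pat_of_cnt ?_) (fun t => by rw [hper])
    rw [hcnt, hcnt]
  · exact Nat.div_pos (Nat.le_of_dvd h.L0 (Nat.gcd_dvd_right n L)) hp0
  · intro s s' hss
    obtain ⟨k, hk, b, b', h1, h2, h3⟩ := h.sep (Nat.mod_lt s h.L0) (Nat.mod_lt s' h.L0)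
      (fun h0 => hss h0)
    exact ⟨k, hk, b, b', by rw [cy_add h s hk]; exact h1, by rw [cy_add h s' hk]; exact h2, h3⟩

/-- the inequality -/
theorem Wd.bound (h : Wd a n c L w) (hcn : c < n) : ∃ m : ℕ, 0 < m ∧ m < n.gcd L ∧
    c * n.gcd L = m * n ∧ 2 ^ (n.gcd L - 1) ≤ (n.gcd L) ^ (m - 1) := by
  have hC := h.cycle
  have h1 := main hC
  set p := n.gcd L with hp
  set m := ∑ j ∈ range p, ind (cy L w) j with hm
  obtain ⟨q, hq⟩ : p ∣ n := Nat.gcd_dvd_left n L
  have h2 := sum_mul hC.pat q 0
  rw [← hq, hC.cnt 0, ← hm] at h2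
  have hq0 : 0 < q := by
    rcases Nat.eq_zero_or_pos q with h0 | h0
    · rw [h0, zero_mul] at h2
      have := h.c0
      omega
    · exact h0
  have hm0 : 0 < m := by
    rcases Nat.eq_zero_or_pos m with h0 | h0
    · rw [h0, mul_zero] at h2
      have := h.c0
      omega
    · exact h0
  refine ⟨m, hm0, ?_, ?_, h1⟩
  · by_contra h3
    push Not at h3
    have h4 : p * q ≤ q * m := by rw [mul_comm p q]; exact Nat.mul_le_mul_left _ h3
    rw [← hq, ← h2] at h4
    omega
  · rw [h2]
    calc q * m * p = m * (p * q) := by ring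
      _ = m * n := by rw [← hq]

end cyc

/-! ### Lists -/

/-- The partial word `v` (`none` is the diamond) covers the word `u` at position `i`. -/
def CoversAt {a n : ℕ} (v : List (Option (Fin a))) (u : Fin n → Fin a) (i : ℕ) : Prop :=
  i + n ≤ v.length ∧ ∀ j : Fin n, v[i + j.val]? = some none ∨ v[i + j.val]? = some (some (u j))

lemma list_wd {a n d : ℕ} (ha : 2 ≤ a) {v : List (Option (Fin a))}
    (hU : ∀ u : Fin n → Fin a, ∃! i : ℕ, CoversAt v u i)
    (hN : none ∈ v ∧ v ≠ List.replicate n none)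
    (hD : ∀ i : ℕ, i + n ≤ v.length →
      (Finset.univ.filter fun j : Fin n => v[i + j.val]? = some none).card = d) :
    0 < n ∧ 0 < d ∧ d < n ∧
      Wd a n (n - d) (v.length + 1 - n) (fun t => (v[t]?).getD none) := by
  have hget : ∀ t < v.length, v[t]? = some ((v[t]?).getD none) := by
    intro t ht
    rw [List.getElem?_eq_getElem ht]
    rfl
  have hlen : 0 < v.length := List.length_pos_of_mem hN.1
  have hn : 0 < n := by
    rcases Nat.eq_zero_or_pos n with rfl | h
    · exfalso
      obtain ⟨i, -, hi⟩ := hU fun j => j.elim0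
      have h0 : 0 = i := hi 0 ⟨by omega, fun j => j.elim0⟩
      have h1 : 1 = i := hi 1 ⟨by omega, fun j => j.elim0⟩
      omega
    · exact h
  have hvn : n ≤ v.length := by
    obtain ⟨i, ⟨hi, -⟩, -⟩ := hU fun _ => ⟨0, by omega⟩
    omega
  have hdn : d ≤ n := by
    rw [← hD 0 (by omega)]
    refine (Finset.card_le_univ _).trans ?_
    rw [Fintype.card_fin]
  have huni : ∀ u : ℕ → Fin a, ∃! s, s < v.length + 1 - n ∧ ∀ j < n,
      (v[s + j]?).getD none = none ∨ (v[s + j]?).getD none = some (u j) := by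
    intro u
    have hiff : ∀ s, CoversAt v (fun j : Fin n => u j) s ↔ s < v.length + 1 - n ∧ ∀ j < n,
        (v[s + j]?).getD none = none ∨ (v[s + j]?).getD none = some (u j) := by
      intro s
      constructor
      · rintro ⟨h1, h2⟩
        refine ⟨by omega, fun j hj => ?_⟩
        rcases h2 ⟨j, hj⟩ with h3 | h3
        · left
          have h3 : v[s + j]? = some none := h3
          rw [h3]
          rfl
        · right
          have h3 : v[s + j]? = some (some (u j)) := h3
          rw [h3]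
          rfl
      · rintro ⟨h1, h2⟩
        refine ⟨by omega, fun j => ?_⟩
        have h4 := hget (s + j) (by have := j.2; omega)
        rcases h2 j j.2 with h3 | h3
        · left
          rw [h4, h3]
        · right
          rw [h4, h3]
    obtain ⟨i, hi, hi'⟩ := hU fun j : Fin n => u j
    exact ⟨i, (hiff i).1 hi, fun y hy => hi' y ((hiff y).2 hy)⟩
  have hcount : ∀ s < v.length + 1 - n,
      ∑ k ∈ range n, ind (fun t => (v[t]?).getD none) (k + s) + d = n := by
    intro s hs
    rw [← hD s (by omega), Finset.card_filter, Finset.sum_range, ← Finset.sum_add_distrib]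
    have h1 : ∀ k : Fin n, ind (fun t => (v[t]?).getD none) (k + s) +
        (if v[s + (k : ℕ)]? = some none then 1 else 0) = 1 := by
      intro k
      have h2 := hget (s + k) (by have := k.2; omega)
      unfold ind
      rw [add_comm (k : ℕ) s]
      by_cases h3 : (v[s + (k : ℕ)]?).getD none = none
      · rw [if_pos h3, if_pos (by rw [h2, h3])]
      · rw [if_neg h3, if_neg]
        intro h4
        exact h3 (by rw [h4]; rfl)
    rw [Finset.sum_congr rfl fun k _ => h1 k]
    simp
  have hd0 : 0 < d := by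
    obtain ⟨t, ht, ht'⟩ := List.mem_iff_getElem.1 hN.1
    by_contra h0
    have h0 : d = 0 := by omega
    have h1 := hD (min t (v.length - n)) (by omega)
    rw [h0, Finset.card_eq_zero, Finset.filter_eq_empty_iff] at h1
    refine h1 (x := ⟨t - min t (v.length - n), by omega⟩) (Finset.mem_univ _) ?_
    show v[min t (v.length - n) + (t - min t (v.length - n))]? = some none
    rw [show min t (v.length - n) + (t - min t (v.length - n)) = t by omega,
      List.getElem?_eq_getElem ht, ht']
  have hdn' : d < n := by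
    by_contra h0
    have h0 : d = n := by omega
    have h1 : ∀ s < v.length + 1 - n, ∀ k < n, (v[s + k]?).getD none = none := by
      intro s hs k hk
      have h2 := hcount s hs
      have h3 : ∑ k ∈ range n, ind (fun t => (v[t]?).getD none) (k + s) = 0 := by omega
      have h4 := (Finset.sum_eq_zero_iff.1 h3) k (mem_range.2 hk)
      unfold ind at h4
      by_contra h5
      rw [if_neg (by rw [add_comm k s]; exact h5)] at h4
      omega
    obtain ⟨s, hs, hs'⟩ := huni fun _ => ⟨0, by omega⟩
    have h2 : ∀ t < v.length + 1 - n, t = s := fun t ht =>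
      hs' t ⟨ht, fun j hj => Or.inl (h1 t ht j hj)⟩
    have h3 : v.length = n := by
      by_contra h4
      have h5 := h2 0 (by omega)
      have h6 := h2 1 (by omega)
      omega
    apply hN.2
    rw [List.eq_replicate_iff]
    refine ⟨h3, fun b hb => ?_⟩
    obtain ⟨t, ht, ht'⟩ := List.mem_iff_getElem.1 hb
    have h4 := h1 0 (by omega) t (by omega)
    rw [zero_add, List.getElem?_eq_getElem ht, ht'] at h4
    exact h4
  refine ⟨hn, hd0, hdn', ha, by omega, by omega, huni, fun s hs => ?_⟩
  have := hcount s hs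
  omega

/-- the inequality for lists -/
theorem list_bound {a n d : ℕ} (ha : 2 ≤ a) {v : List (Option (Fin a))}
    (hU : ∀ u : Fin n → Fin a, ∃! i : ℕ, CoversAt v u i)
    (hN : none ∈ v ∧ v ≠ List.replicate n none)
    (hD : ∀ i : ℕ, i + n ≤ v.length →
      (Finset.univ.filter fun j : Fin n => v[i + j.val]? = some none).card = d) :
    0 < n ∧ 0 < d ∧ d < n ∧ ∃ m : ℕ, 0 < m ∧ m < n.gcd (a ^ (n - d)) ∧
      (n - d) * n.gcd (a ^ (n - d)) = m * n ∧
      2 ^ (n.gcd (a ^ (n - d)) - 1) ≤ (n.gcd (a ^ (n - d))) ^ (m - 1) := by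
  obtain ⟨h1, h2, h3, h4⟩ := list_wd ha hU hN hD
  have h5 := h4.bound (by omega)
  rw [h4.La] at h5
  exact ⟨h1, h2, h3, h5⟩

end Pool.Agent.H81U
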