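import Pool.Agent.H81U.Core

/-!
# Universal partial words with well-defined diamondicity are cyclic (helper81)

`w` is a partial word with `L` windows of length `n`, each with `c` letters, which cover every word exactly once.
Then `L = a ^ c > n`, the first and the last `n - 1` characters coincide, so that `w` is a cyclic word of
length `L`, and the pattern of the diamonds has the period `gcd n L`.
-/

set_option autoImplicit false
set_option linter.unusedVariables false

namespace Pool.Agent.H81U

open Finset
open scoped Classical

/-- the hypotheses -/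
structure Wd (a n c L : ℕ) (w : ℕ → Option (Fin a)) : Prop where
  a2 : 2 ≤ a
  c0 : 0 < c
  L0 : 0 < L
  uni : ∀ u : ℕ → Fin a, ∃! s, s < L ∧ ∀ j < n, w (s + j) = none ∨ w (s + j) = some (u j)
  dia : ∀ s < L, ∑ k ∈ range n, ind w (k + s) = c

section word

variable {a n c L : ℕ} {w : ℕ → Option (Fin a)}

lemma Wd.cn (h : Wd a n c L w) : c ≤ n := by
  rw [← h.dia 0 h.L0]
  calc ∑ k ∈ range n, ind w (k + 0) ≤ ∑ k ∈ range n, 1 := by
        refine Finset.sum_le_sum fun k _ => ?_
        unfold ind
        split_ifs <;> omega
    _ = n := by simp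

/-- the zero letter -/
def z (h : Wd a n c L w) : Fin a := ⟨0, by have := h.a2; omega⟩

/-- separation -/
lemma Wd.sep (h : Wd a n c L w) {s s' : ℕ} (hs : s < L) (hs' : s' < L) (hne : s ≠ s') :
    ∃ k < n, ∃ b b' : Fin a, w (s + k) = some b ∧ w (s' + k) = some b' ∧ b ≠ b' := by
  by_contra hc
  push Not at hc
  let u : ℕ → Fin a := fun k => (w (s + k)).getD ((w (s' + k)).getD (z h))
  obtain ⟨t, -, ht⟩ := h.uni u
  have h1 : s = t := by
    apply ht
    refine ⟨hs, fun j hj => ?_⟩
    cases e : w (s + j) with
    | none => exact Or.inl rfl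
    | some b =>
      right
      show some b = some ((w (s + j)).getD _)
      rw [e]
      rfl
  have h2 : s' = t := by
    apply ht
    refine ⟨hs', fun j hj => ?_⟩
    cases e : w (s' + j) with
    | none => exact Or.inl rfl
    | some b' =>
      right
      show some b' = some ((w (s + j)).getD ((w (s' + j)).getD (z h)))
      cases e' : w (s + j) with
      | none => rw [e]; rfl
      | some b =>
        rw [hc j hj b b' e' e]
        rfl
  exact hne (h1.trans h2.symm)

/-- the pattern -/
lemma Wd.pat (h : Wd a n c L w) {s : ℕ} (hs : s + 1 < L) : w (s + n) = none ↔ w s = none := by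
  have h1 := h.dia s (by omega)
  have h2 := h.dia (s + 1) hs
  have h3 := Finset.sum_range_succ (fun k => ind w (k + s)) n
  have h4 := Finset.sum_range_succ' (fun k => ind w (k + s)) n
  have h5 : ∑ k ∈ range n, ind w (k + 1 + s) = ∑ k ∈ range n, ind w (k + (s + 1)) :=
    Finset.sum_congr rfl fun k _ => by congr 1; omega
  have h6 : ind w (n + s) = ind w (0 + s) := by omega
  rw [zero_add, add_comm n s] at h6
  unfold ind at h6
  by_cases h7 : w (s + n) = none
  · rw [if_pos h7] at h6
    refine ⟨fun _ => ?_, fun _ => h7⟩
    by_contra h8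
    rw [if_neg h8] at h6
    omega
  · rw [if_neg h7] at h6
    refine ⟨fun h8 => absurd h8 h7, fun h8 => ?_⟩
    rw [if_pos h8] at h6
    omega

/-- a unique start is counted once -/
lemma Wd.one (h : Wd a n c L w) (u : ℕ → Fin a) :
    ∑ s ∈ range L, (if ∀ j < n, w (s + j) = none ∨ w (s + j) = some (u j) then 1 else 0) = 1 := by
  obtain ⟨t, ⟨ht1, ht2⟩, ht3⟩ := h.uni u
  rw [Finset.sum_eq_single_of_mem t (mem_range.2 ht1), if_pos ht2]
  intro s hs hne
  rw [if_neg]
  intro h1
  exact hne (ht3 s ⟨mem_range.1 hs, h1⟩)

/-- the number of the windows -/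
lemma Wd.La (h : Wd a n c L w) : L = a ^ c := by
  have h1 : ∀ s ∈ range L, ∑ u : Fin n → Fin a,
      (if ∀ j : Fin n, w (s + j) = none ∨ w (s + j) = some (u j) then 1 else 0) = a ^ (n - c) := by
    intro s hs
    rw [← Finset.card_filter]
    have e : (univ.filter fun u : Fin n → Fin a =>
        ∀ j : Fin n, w (s + j) = none ∨ w (s + j) = some (u j)) =
        Fintype.piFinset fun j : Fin n =>
          univ.filter fun b : Fin a => w (s + j) = none ∨ w (s + j) = some b := by
      ext u
      simp [Fintype.mem_piFinset]
    rw [e, Fintype.card_piFinset]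
    have h2 : ∀ j : Fin n, (univ.filter fun b : Fin a =>
        w (s + j) = none ∨ w (s + j) = some b).card = a ^ (1 - ind w (j + s)) := by
      intro j
      rw [add_comm (j : ℕ) s]
      unfold ind
      cases e : w (s + j) with
      | none => simp
      | some b =>
        have e2 : (univ.filter fun b' : Fin a => (some b : Option (Fin a)) = none ∨
            some b = some b') = {b} := by
          ext b'
          simp [eq_comm]
        rw [e2]
        simp
    rw [Finset.prod_congr rfl fun j _ => h2 j, Finset.prod_pow_eq_pow_sum]
    congr 1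
    have h3 := h.dia s (mem_range.1 hs)
    have h4 : ∑ j : Fin n, (1 - ind w (j + s)) = ∑ k ∈ range n, (1 - ind w (k + s)) :=
      (Finset.sum_range fun k => 1 - ind w (k + s)).symm
    rw [h4]
    have h5 : ∑ k ∈ range n, (1 - ind w (k + s)) + ∑ k ∈ range n, ind w (k + s) = n := by
      rw [← Finset.sum_add_distrib]
      have h6 : ∀ k ∈ range n, 1 - ind w (k + s) + ind w (k + s) = 1 := by
        intro k _
        unfold ind
        split_ifs <;> omega
      rw [Finset.sum_congr rfl h6]
      simp
    omega
  have h2 : ∑ s ∈ range L, ∑ u : Fin n → Fin a,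
      (if ∀ j : Fin n, w (s + j) = none ∨ w (s + j) = some (u j) then 1 else 0) = a ^ n := by
    rw [Finset.sum_comm]
    have h3 : ∀ u : Fin n → Fin a, ∑ s ∈ range L,
        (if ∀ j : Fin n, w (s + j) = none ∨ w (s + j) = some (u j) then 1 else 0) = 1 := by
      intro u
      refine Eq.trans ?_ (h.one (fun j => if hj : j < n then u ⟨j, hj⟩ else z h))
      refine Finset.sum_congr rfl fun s _ => ?_
      congr 1
      apply propext
      constructor
      · intro h4 j hj
        rw [dif_pos hj]
        exact h4 ⟨j, hj⟩
      · intro h4 j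
        have h5 := h4 j j.2
        rw [dif_pos j.2] at h5
        exact h5
    rw [Finset.sum_congr rfl fun u _ => h3 u]
    simp
  rw [Finset.sum_congr rfl h1, Finset.sum_const, card_range, smul_eq_mul] at h2
  have h3 : a ^ n = a ^ c * a ^ (n - c) := by
    rw [← pow_add]
    congr 1
    have := h.cn
    omega
  rw [h3] at h2
  exact Nat.eq_of_mul_eq_mul_right (pow_pos (by have := h.a2; omega) _) h2

lemma two_pow (c : ℕ) (hc : 1 ≤ c) : c * c + 2 ≤ 2 ^ c + c ∧ 2 * c ≤ 2 ^ c := by
  induction c, hc using Nat.le_induction with
  | base => norm_num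
  | succ c hc ih =>
    rw [pow_succ]
    constructor
    · nlinarith [ih.1, ih.2]
    · have := ih.2
      omega

/-- there are more than `n` windows -/
lemma Wd.nL (h : Wd a n c L w) : n < L := by
  by_contra hL
  push Not at hL
  let P : Finset ℕ := (range n).filter fun k => w k ≠ none
  have hP : P.card = c := by
    rw [← h.dia 0 h.L0, Finset.card_filter]
    refine Finset.sum_congr rfl fun k _ => ?_
    unfold ind
    rw [add_zero]
    by_cases h1 : w k = none
    · rw [if_neg (not_not.2 h1), if_pos h1]
    · rw [if_pos h1, if_neg h1]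
  have h1 : ∀ s, 0 < s → s < L → ∃ x ∈ P.offDiag, s + x.1 = x.2 ∨ s + x.1 = x.2 + n := by
    intro s h0 hs
    obtain ⟨k, hk, b, b', h2, h3, -⟩ := h.sep h.L0 hs h0.ne
    rw [zero_add] at h2
    by_cases h4 : s + k < n
    · refine ⟨(k, s + k), ?_, Or.inl rfl⟩
      rw [mem_offDiag]
      refine ⟨mem_filter.2 ⟨mem_range.2 hk, by rw [h2]; simp⟩,
        mem_filter.2 ⟨mem_range.2 h4, by rw [h3]; simp⟩, ?_⟩
      show k ≠ s + k
      omega
    · refine ⟨(k, s + k - n), ?_, Or.inr (by show s + k = s + k - n + n; omega)⟩
      rw [mem_offDiag]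
      refine ⟨mem_filter.2 ⟨mem_range.2 hk, by rw [h2]; simp⟩,
        mem_filter.2 ⟨mem_range.2 (by omega), fun h5 => ?_⟩, ?_⟩
      · have h6 := (h.pat (s := s + k - n) (by omega)).2 h5
        rw [show s + k - n + n = s + k by omega, h3] at h6
        cases h6
      · show k ≠ s + k - n
        omega
  choose! f hf1 hf2 using h1
  have h2 : ((range (L - 1)).image fun s => f (s + 1)).card = L - 1 := by
    rw [card_image_of_injOn, card_range]
    intro s hs s' hs' heq
    have hs := mem_range.1 (Finset.mem_coe.1 hs)
    have hs' := mem_range.1 (Finset.mem_coe.1 hs')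
    simp only at heq
    have h3 := hf2 (s + 1) (by omega) (by omega)
    have h4 := hf2 (s' + 1) (by omega) (by omega)
    rw [← heq] at h4
    have h5 := mem_offDiag.1 (hf1 (s + 1) (by omega) (by omega))
    have h6 := mem_range.1 (mem_filter.1 h5.1).1
    have h7 := mem_range.1 (mem_filter.1 h5.2.1).1
    omega
  have h3 : ((range (L - 1)).image fun s => f (s + 1)).card ≤ P.offDiag.card := by
    apply card_le_card
    intro x hx
    obtain ⟨s, hs, rfl⟩ := mem_image.1 hx
    have hs := mem_range.1 hs
    exact hf1 (s + 1) (by omega) (by omega)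
  rw [h2, offDiag_card, hP] at h3
  have h4 : 2 ^ c ≤ L := by
    rw [h.La]
    exact Nat.pow_le_pow_left h.a2 c
  have h5 := (two_pow c h.c0).1
  have h6 : c ≤ c * c := Nat.le_mul_self c
  omega

/-- the first and the last characters coincide -/
lemma Wd.cyc (h : Wd a n c L w) {t : ℕ} (ht : t + 1 < n) : w (L + t) = w t := by
  have ha := h.a2
  obtain ⟨N, rfl⟩ : ∃ N, n = N + 1 := ⟨n - 1, by omega⟩
  have hL := h.L0
  -- the covering relation of the blocks of length `N`
  let C : ℕ → (ℕ → Fin a) → Prop := fun s y => ∀ j < N, w (s + j) = none ∨ w (s + j) = some (y j)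
  let α : ℕ → ℕ := fun s => if w s = none then a else 1
  have hα : ∀ s, ∑ x : Fin a, (if w s = none ∨ w s = some x then 1 else 0) = α s := by
    intro s
    show _ = if w s = none then a else 1
    cases e : w s with
    | none => simp
    | some b => simp
  have hα0 : ∀ s, 0 < α s := by
    intro s
    show 0 < if w s = none then a else 1
    split_ifs <;> omega
  have h1 : ∀ y : ℕ → Fin a, ∑ s ∈ range L, (if C (s + 1) y then α s else 0) = a := by
    intro y
    have h2 : ∀ s ∈ range L, (if C (s + 1) y then α s else 0) = ∑ x : Fin a,
        if ∀ j < N + 1, w (s + j) = none ∨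
          w (s + j) = some ((fun j => if j = 0 then x else y (j - 1) : ℕ → Fin a) j) then 1 else 0 := by
      intro s _
      have h3 : ∀ x : Fin a, (∀ j < N + 1, w (s + j) = none ∨
          w (s + j) = some ((fun j => if j = 0 then x else y (j - 1) : ℕ → Fin a) j)) ↔
          C (s + 1) y ∧ (w s = none ∨ w s = some x) := by
        intro x
        constructor
        · intro h4
          refine ⟨fun j hj => ?_, ?_⟩
          · have h5 := h4 (j + 1) (by omega)
            simp only [Nat.add_eq_zero_iff, one_ne_zero, and_false, if_false,
              Nat.add_sub_cancel] at h5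
            rwa [show s + (j + 1) = s + 1 + j by omega] at h5
          · have h5 := h4 0 (by omega)
            simpa using h5
        · rintro ⟨h4, h5⟩ j hj
          rcases Nat.eq_zero_or_pos j with rfl | hj0
          · simpa using h5
          · have h6 := h4 (j - 1) (by omega)
            rw [show s + 1 + (j - 1) = s + j by omega] at h6
            simp only [hj0.ne', if_false]
            exact h6
      simp only [h3]
      by_cases h4 : C (s + 1) y
      · rw [if_pos h4, ← hα s]
        simp only [h4, true_and]
      · rw [if_neg h4]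
        simp only [h4, false_and, if_false, Finset.sum_const_zero]
    rw [Finset.sum_congr rfl h2, Finset.sum_comm, Finset.sum_congr rfl fun x _ => h.one _]
    simp
  have h2 : ∀ y : ℕ → Fin a, ∑ s ∈ range L, (if C s y then α (s + N) else 0) = a := by
    intro y
    have h2 : ∀ s ∈ range L, (if C s y then α (s + N) else 0) = ∑ x : Fin a,
        if ∀ j < N + 1, w (s + j) = none ∨
          w (s + j) = some ((fun j => if j < N then y j else x : ℕ → Fin a) j) then 1 else 0 := by
      intro s _
      have h3 : ∀ x : Fin a, (∀ j < N + 1, w (s + j) = none ∨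
          w (s + j) = some ((fun j => if j < N then y j else x : ℕ → Fin a) j)) ↔
          C s y ∧ (w (s + N) = none ∨ w (s + N) = some x) := by
        intro x
        constructor
        · intro h4
          refine ⟨fun j hj => ?_, ?_⟩
          · have h5 := h4 j (by omega)
            simp only [hj, if_true] at h5
            exact h5
          · have h5 := h4 N (by omega)
            simpa using h5
        · rintro ⟨h4, h5⟩ j hj
          by_cases hj' : j < N
          · simp only [hj', if_true]
            exact h4 j hj'
          · have : j = N := by omega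
            subst this
            simpa using h5
      simp only [h3]
      by_cases h4 : C s y
      · rw [if_pos h4, ← hα (s + N)]
        simp only [h4, true_and]
      · rw [if_neg h4]
        simp only [h4, false_and, if_false, Finset.sum_const_zero]
    rw [Finset.sum_congr rfl h2, Finset.sum_comm, Finset.sum_congr rfl fun x _ => h.one _]
    simp
  have h3 : ∀ y : ℕ → Fin a, C L y ↔ C 0 y := by
    intro y
    obtain ⟨M, hM⟩ : ∃ M, L = M + 1 := ⟨L - 1, by omega⟩
    have h4 := h1 y
    have h5 := h2 y
    rw [hM, Finset.sum_range_succ] at h4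
    rw [hM, Finset.sum_range_succ'] at h5
    have h6 : ∑ s ∈ range M, (if C (s + 1) y then α s else 0) =
        ∑ s ∈ range M, (if C (s + 1) y then α (s + 1 + N) else 0) := by
      refine Finset.sum_congr rfl fun s hs => ?_
      have hs := mem_range.1 hs
      have h7 := h.pat (s := s) (by omega)
      have h8 : α s = α (s + 1 + N) := by
        show (if w s = none then a else 1) = if w (s + 1 + N) = none then a else 1
        rw [show s + 1 + N = s + (N + 1) by omega]
        simp only [h7]
      rw [h8]
    have h7 : (if C (M + 1) y then α M else 0) = if C 0 y then α (0 + N) else 0 := by omega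
    rw [hM]
    constructor
    · intro h8
      by_contra h9
      rw [if_pos h8, if_neg h9] at h7
      exact (hα0 M).ne' h7
    · intro h8
      by_contra h9
      rw [if_neg h9, if_pos h8] at h7
      exact (hα0 (0 + N)).ne h7
  have htN : t < N := by omega
  -- the letter
  let y₀ : ℕ → Fin a := fun j => (w j).getD (z h)
  have hy₀ : C 0 y₀ := by
    intro j _
    rw [zero_add]
    cases e : w j with
    | none => exact Or.inl rfl
    | some b =>
      right
      show some b = some ((w j).getD _)
      rw [e]
      rfl
  have hother : ∀ b : Fin a, ∃ b' : Fin a, b' ≠ b := by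
    intro b
    by_cases hb : (b : ℕ) = 0
    · exact ⟨⟨1, by omega⟩, fun e => by have := congrArg Fin.val e; simp at this; omega⟩
    · exact ⟨⟨0, by omega⟩, fun e => hb (by rw [← e])⟩
  have hy₁ := (h3 y₀).2 hy₀
  have hupd : ∀ (s : ℕ) (y : ℕ → Fin a) (b' : Fin a), C s y → w (s + t) = none →
      C s (Function.update y t b') := by
    intro s y b' h5 h6 j hj
    by_cases h7 : j = t
    · subst h7
      exact Or.inl h6
    · rw [Function.update_of_ne h7]
      exact h5 j hj
  cases e : w t with
  | none =>
    by_contra h4
    obtain ⟨b, hb⟩ := Option.ne_none_iff_exists'.1 h4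
    obtain ⟨b', hb'⟩ := hother b
    have h5 := (h3 _).2 (hupd 0 y₀ b' hy₀ (by rw [zero_add]; exact e)) t htN
    rw [hb, Function.update_self] at h5
    rcases h5 with h5 | h5
    · cases h5
    · exact hb' (Option.some.inj h5).symm
  | some b =>
    have h4 := hy₁ t htN
    have h5 : y₀ t = b := by
      show (w t).getD _ = b
      rw [e]
      rfl
    rw [h5] at h4
    rcases h4 with h4 | h4
    · exfalso
      obtain ⟨b', hb'⟩ := hother b
      have h6 := (h3 _).1 (hupd L y₀ b' hy₁ h4) t htN
      rw [zero_add, e, Function.update_self] at h6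
      rcases h6 with h6 | h6
      · cases h6
      · exact hb' (Option.some.inj h6).symm
    · exact h4

end word

end Pool.Agent.H81U
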